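import Pool.Agent.W233.SG2

set_option autoImplicit false

/-! Placement polynomials of posets made of blocks of twins, two chains of blocks. -/

namespace Pool.Agent.Y409.Gr

open Polynomial
open Pool.Agent.W233.SG (W allowed upd allowed_iff testBit_upd)

/-- The block order: even blocks form a chain, odd blocks form a chain, and the even blocks of rank
at most `s` are below the odd blocks of rank larger than `s`. -/
def rel (s t t' : ℕ) : Prop :=
  (t % 2 = t' % 2 ∧ t < t') ∨ (t % 2 = 0 ∧ t' % 2 = 1 ∧ t / 2 ≤ s ∧ s < t' / 2)

instance (s t t' : ℕ) : Decidable (rel s t t') := inferInstanceAs (Decidable (_ ∨ _))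

/-- The labels of block `t` that are not yet placed. -/
def R (blk : ℕ → ℕ) (p I t : ℕ) : Finset ℕ :=
  (Finset.range p).filter (fun x => blk x = t ∧ I.testBit x = false)

/-- The factor for placing the `j`-th smallest element of block `t` when the last placed label is
in block `b` and `j0` unplaced labels of `b` are below it. -/
noncomputable def fac (t j b j0 : ℕ) : ℝ[X] := if t < b ∨ (t = b ∧ j < j0) then X else 1

/-- The odd block `t` may be used when the chain of even blocks still to be placed is `la`. -/
def avB (s : ℕ) : List ℕ → ℕ → Prop
  | [], _ => True
  | ta :: _, t => ¬ (ta / 2 ≤ s ∧ s < t / 2)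

instance (s : ℕ) (la : List ℕ) (t : ℕ) : Decidable (avB s la t) := by
  cases la <;> unfold avB <;> infer_instance

/-- The polynomial of the completions, by `n` further elements. -/
noncomputable def V (s : ℕ) : ℕ → List ℕ → List ℕ → ℕ → ℕ → ℝ[X]
  | 0, _, _, _, _ => 1
  | n + 1, la, lb, b, j0 =>
    (match la with
      | [] => 0
      | t :: la' => ∑ j ∈ Finset.range ((t :: la').count t), fac t j b j0 * V s n la' lb t j) +
    (match lb with
      | [] => 0
      | t :: lb' => if avB s la t then
          ∑ j ∈ Finset.range ((t :: lb').count t), fac t j b j0 * V s n la lb' t j else 0)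

theorem V_succ (s n : ℕ) (la lb : List ℕ) (b j0 : ℕ) : V s (n + 1) la lb b j0 =
    (match la with
      | [] => 0
      | t :: la' => ∑ j ∈ Finset.range ((t :: la').count t), fac t j b j0 * V s n la' lb t j) +
    (match lb with
      | [] => 0
      | t :: lb' => if avB s la t then
          ∑ j ∈ Finset.range ((t :: lb').count t), fac t j b j0 * V s n la lb' t j else 0) := by
  cases la <;> cases lb <;> rfl

theorem sum_rank {M : Type*} [AddCommMonoid M] (f : ℕ → M) (S : Finset ℕ) :
    ∑ x ∈ S, f ((S.filter (fun y => y < x)).card) = ∑ j ∈ Finset.range S.card, f j := by
  induction S using Finset.induction_on_max with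
  | empty => simp
  | insert a S hmax ih =>
    have ha : a ∉ S := fun h => lt_irrefl _ (hmax a h)
    rw [Finset.sum_insert ha, Finset.card_insert_of_notMem ha, Finset.sum_range_succ, add_comm, ← ih]
    congr 1
    · refine Finset.sum_congr rfl fun x hx => ?_
      congr 2
      ext y
      simp only [Finset.mem_filter, Finset.mem_insert]
      constructor
      · rintro ⟨rfl | h, h2⟩
        · exact absurd h2 (not_lt.mpr (hmax x hx).le)
        · exact ⟨h, h2⟩
      · rintro ⟨h, h2⟩
        exact ⟨Or.inr h, h2⟩
    · congr 2
      ext y
      simp only [Finset.mem_filter, Finset.mem_insert]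
      constructor
      · rintro ⟨rfl | h, h2⟩
        · exact absurd h2 (lt_irrefl _)
        · exact h
      · intro h
        exact ⟨Or.inr h, hmax y h⟩

theorem mem_R (blk : ℕ → ℕ) (p I t x : ℕ) :
    x ∈ R blk p I t ↔ x < p ∧ blk x = t ∧ I.testBit x = false := by
  simp [R]

theorem R_upd (blk : ℕ → ℕ) (p I t x : ℕ) : R blk p (upd I x) t = (R blk p I t).erase x := by
  ext y
  rw [Finset.mem_erase, mem_R, mem_R, testBit_upd, Bool.or_eq_false_iff, decide_eq_false_iff_not]
  constructor
  · rintro ⟨h1, h2, h3, h4⟩
    exact ⟨fun h => h4 h.symm, h1, h2, h3⟩
  · rintro ⟨h1, h2, h3, h4⟩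
    exact ⟨h2, h3, h4, fun h => h1 h.symm⟩

section

variable (s p : ℕ) (blk pred : ℕ → ℕ)
  (hmono : ∀ x y, x ≤ y → blk x ≤ blk y)
  (hpred : ∀ x < p, ∀ y, (pred x).testBit y = true ↔ y < p ∧ rel s (blk y) (blk x))

include hpred in
theorem allowed_iff' (I x : ℕ) (hx : x < p) :
    allowed pred I x = true ↔ I.testBit x = false ∧ ∀ t, rel s t (blk x) → R blk p I t = ∅ := by
  rw [allowed_iff]
  refine and_congr_right fun _ => ⟨fun h t ht => ?_, fun h y hy => ?_⟩
  · rw [Finset.eq_empty_iff_forall_notMem]
    intro y hy
    rw [mem_R] at hy
    have := h y ((hpred x hx y).mpr ⟨hy.1, hy.2.1 ▸ ht⟩)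
    rw [hy.2.2] at this
    exact Bool.noConfusion this
  · obtain ⟨h1, h2⟩ := (hpred x hx y).mp hy
    have h3 := h _ h2
    by_contra h4
    rw [Bool.not_eq_true] at h4
    have : y ∈ R blk p I (blk y) := (mem_R _ _ _ _ _).mpr ⟨h1, rfl, h4⟩
    rw [h3] at this
    simp at this

include hmono in
theorem fac_eq (I l x : ℕ) (hx : x ∈ R blk p I (blk x)) :
    (if x < l then (X : ℝ[X]) else 1) =
      fac (blk x) ((R blk p I (blk x)).filter (fun y => y < x)).card (blk l)
        ((R blk p I (blk l)).filter (fun y => y < l)).card := by
  unfold fac
  have key : x < l ↔ (blk x < blk l ∨ (blk x = blk l ∧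
      ((R blk p I (blk x)).filter (fun y => y < x)).card <
        ((R blk p I (blk l)).filter (fun y => y < l)).card)) := by
    constructor
    · intro h
      rcases lt_or_eq_of_le (hmono x l h.le) with h1 | h1
      · exact Or.inl h1
      · refine Or.inr ⟨h1, ?_⟩
        rw [← h1]
        apply Finset.card_lt_card
        rw [Finset.ssubset_iff_of_subset]
        · exact ⟨x, by simp [hx, h], by simp⟩
        · intro y hy
          rw [Finset.mem_filter] at hy ⊢
          exact ⟨hy.1, hy.2.trans h⟩
    · rintro (h | ⟨h1, h2⟩)
      · by_contra h3
        exact absurd (hmono l x (not_lt.mp h3)) (not_le.mpr h)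
      · by_contra h3
        rw [← h1] at h2
        refine absurd h2 (not_lt.mpr (Finset.card_le_card ?_))
        intro y hy
        rw [Finset.mem_filter] at hy ⊢
        exact ⟨hy.1, lt_of_lt_of_le hy.2 (not_lt.mp h3)⟩
  by_cases h : x < l
  · rw [if_pos h, if_pos (key.mp h)]
  · rw [if_neg h, if_neg (fun h' => h (key.mpr h'))]

include hmono hpred in
theorem main1 : ∀ (n I l : ℕ) (la lb : List ℕ), la.Pairwise (· ≤ ·) → lb.Pairwise (· ≤ ·) →
    (∀ t ∈ la, t % 2 = 0) → (∀ t ∈ lb, t % 2 = 1) →
    (∀ t, (R blk p I t).card = la.count t + lb.count t) →
    W pred p n (I, l) =
      V s n la lb (blk l) ((R blk p I (blk l)).filter (fun y => y < l)).card := by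
  intro n
  induction n with
  | zero => intro I l la lb _ _ _ _ _; rfl
  | succ n ih =>
    intro I l la lb sa sb ea eb hR
    rw [W]
    -- abbreviations
    have ca0 : ∀ t ∈ lb, la.count t = 0 := fun t ht =>
      List.count_eq_zero.mpr fun h => by have := ea t h; have := eb t ht; omega
    have cb0 : ∀ t ∈ la, lb.count t = 0 := fun t ht =>
      List.count_eq_zero.mpr fun h => by have := ea t ht; have := eb t h; omega
    -- the value of a summand
    have hval : ∀ x t la' lb', x ∈ R blk p I t →
        (allowed pred I x = true) →
        la'.Pairwise (· ≤ ·) → lb'.Pairwise (· ≤ ·) →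
        (∀ t ∈ la', t % 2 = 0) → (∀ t ∈ lb', t % 2 = 1) →
        (∀ t', la'.count t' + lb'.count t' = la.count t' + lb.count t' - (if t' = t then 1 else 0)) →
        (if allowed pred I x = true then
          (if x < l then (X : ℝ[X]) else 1) * W pred p n (upd I x, x) else 0) =
        (fun j => fac t j (blk l) ((R blk p I (blk l)).filter (fun y => y < l)).card *
          V s n la' lb' t j) (((R blk p I t).filter (fun y => y < x)).card) := by
      intro x t la' lb' hx hal h1 h2 h3 h4 h5
      have hbx : blk x = t := ((mem_R _ _ _ _ _).mp hx).2.1
      subst hbx
      rw [if_pos hal, fac_eq p blk hmono I l x hx, ih (upd I x) x la' lb' h1 h2 h3 h4 ?_]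
      · simp only
        congr 3
        rw [R_upd, Finset.filter_erase, Finset.erase_eq_of_notMem]
        simp
      · intro t'
        rw [R_upd, h5 t', ← hR t']
        by_cases ht : t' = blk x
        · subst ht
          rw [Finset.card_erase_of_mem hx, if_pos rfl]
        · rw [Finset.erase_eq_of_notMem, if_neg ht, Nat.sub_zero]
          rw [mem_R]
          rintro ⟨_, h, _⟩
          exact ht h.symm
    -- the two parts
    set SA : Finset ℕ := match la with | [] => ∅ | t :: _ => R blk p I t with hSA
    set SB : Finset ℕ := match lb with
      | [] => ∅
      | t :: _ => if avB s la t then R blk p I t else ∅ with hSB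
    have hsubA : ∀ x ∈ SA, x < p ∧ allowed pred I x = true ∧ blk x % 2 = 0 := by
      intro x hx
      cases la with
      | nil => simp [hSA] at hx
      | cons ta la' =>
        simp only [hSA] at hx
        have hx' := (mem_R _ _ _ _ _).mp hx
        have hta : ta % 2 = 0 := ea ta (by simp)
        refine ⟨hx'.1, (allowed_iff' s p blk pred hpred I x hx'.1).mpr ⟨hx'.2.2, ?_⟩, ?_⟩
        · intro t' ht'
          rw [hx'.2.1] at ht'
          rw [← Finset.card_eq_zero, hR]
          have h1 : t' % 2 = 0 ∧ t' < ta := by
            rcases ht' with h | h
            · exact ⟨by omega, h.2⟩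
            · omega
          have h2 : (ta :: la').count t' = 0 := by
            apply List.count_eq_zero.mpr
            intro h
            rcases List.mem_cons.mp h with h | h
            · omega
            · have := List.rel_of_pairwise_cons sa h
              omega
          have h3 : lb.count t' = 0 := by
            apply List.count_eq_zero.mpr
            intro h
            have := eb t' h
            omega
          omega
        · rw [hx'.2.1]; exact hta
    have hsubB : ∀ x ∈ SB, x < p ∧ allowed pred I x = true ∧ blk x % 2 = 1 := by
      intro x hx
      cases lb with
      | nil => simp [hSB] at hx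
      | cons tb lb' =>
        simp only [hSB] at hx
        split_ifs at hx with hav
        · have hx' := (mem_R _ _ _ _ _).mp hx
          have htb : tb % 2 = 1 := eb tb (by simp)
          refine ⟨hx'.1, (allowed_iff' s p blk pred hpred I x hx'.1).mpr ⟨hx'.2.2, ?_⟩, ?_⟩
          · intro t' ht'
            rw [hx'.2.1] at ht'
            rw [← Finset.card_eq_zero, hR]
            rcases ht' with h | h
            · have h2 : (tb :: lb').count t' = 0 := by
                apply List.count_eq_zero.mpr
                intro h'
                rcases List.mem_cons.mp h' with h' | h'
                · omega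
                · have := List.rel_of_pairwise_cons sb h'
                  omega
              have h3 : la.count t' = 0 := by
                apply List.count_eq_zero.mpr
                intro h'
                have := ea t' h'
                omega
              omega
            · have h2 : (tb :: lb').count t' = 0 := by
                apply List.count_eq_zero.mpr
                intro h'
                have := eb t' h'
                omega
              have h3 : la.count t' = 0 := by
                apply List.count_eq_zero.mpr
                intro h'
                cases la with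
                | nil => simp at h'
                | cons ta la' =>
                  simp only [avB] at hav
                  have h4 : ta ≤ t' := by
                    rcases List.mem_cons.mp h' with h' | h'
                    · omega
                    · exact List.rel_of_pairwise_cons sa h'
                  omega
              omega
          · rw [hx'.2.1]; exact htb
        · simp at hx
    have hdisj : Disjoint SA SB := by
      rw [Finset.disjoint_left]
      intro x h1 h2
      have := (hsubA x h1).2.2
      have := (hsubB x h2).2.2
      omega
    have hsub : SA ∪ SB ⊆ Finset.range p := by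
      intro x hx
      rw [Finset.mem_range]
      rcases Finset.mem_union.mp hx with h | h
      · exact (hsubA x h).1
      · exact (hsubB x h).1
    have hout : ∀ x ∈ Finset.range p, x ∉ SA ∪ SB →
        (if allowed pred I x = true then
          (if x < l then (X : ℝ[X]) else 1) * W pred p n (upd I x, x) else 0) = 0 := by
      intro x hx hn
      rw [Finset.mem_range] at hx
      rw [if_neg]
      intro hal
      apply hn
      obtain ⟨h1, h2⟩ := (allowed_iff' s p blk pred hpred I x hx).mp hal
      have hxR : x ∈ R blk p I (blk x) := (mem_R _ _ _ _ _).mpr ⟨hx, rfl, h1⟩
      have hpos : 0 < la.count (blk x) + lb.count (blk x) := by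
        rw [← hR]
        exact Finset.card_pos.mpr ⟨x, hxR⟩
      have hne : ∀ t', 0 < la.count t' + lb.count t' → ¬ rel s t' (blk x) := by
        intro t' ht' hr
        have := h2 t' hr
        rw [← Finset.card_eq_zero, hR] at this
        omega
      rw [Finset.mem_union]
      by_cases hmem : blk x ∈ la
      · left
        cases la with
        | nil => simp at hmem
        | cons ta la' =>
          have hta := ea ta (by simp)
          have htx := ea _ hmem
          have : ¬ rel s ta (blk x) := hne ta (by
            have : 0 < (ta :: la').count ta := List.count_pos_iff.mpr (by simp)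
            omega)
          have hle : ta ≤ blk x := by
            rcases List.mem_cons.mp hmem with h | h
            · omega
            · exact List.rel_of_pairwise_cons sa h
          have heq : blk x = ta := by
            by_contra hc
            exact this (Or.inl ⟨by omega, by omega⟩)
          simp only [hSA]
          rw [← heq]
          exact hxR
      · have hmem' : blk x ∈ lb := by
          by_contra hc
          rw [List.count_eq_zero.mpr hmem, List.count_eq_zero.mpr hc] at hpos
          omega
        right
        cases lb with
        | nil => simp at hmem'
        | cons tb lb' =>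
          have htb := eb tb (by simp)
          have htx := eb _ hmem'
          have : ¬ rel s tb (blk x) := hne tb (by
            have : 0 < (tb :: lb').count tb := List.count_pos_iff.mpr (by simp)
            omega)
          have hle : tb ≤ blk x := by
            rcases List.mem_cons.mp hmem' with h | h
            · omega
            · exact List.rel_of_pairwise_cons sb h
          have heq : blk x = tb := by
            by_contra hc
            exact this (Or.inl ⟨by omega, by omega⟩)
          have hav : avB s la tb := by
            cases la with
            | nil => trivial
            | cons ta la' =>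
              simp only [avB]
              intro hc
              have hta := ea ta (by simp)
              refine hne ta ?_ ?_
              · have : 0 < (ta :: la').count ta := List.count_pos_iff.mpr (by simp)
                omega
              · rw [heq]
                exact Or.inr ⟨hta, htb, hc⟩
          simp only [hSB]
          rw [if_pos hav, ← heq]
          exact hxR
    rw [← Finset.sum_subset hsub hout, Finset.sum_union hdisj, V_succ]
    congr 1
    · cases la with
      | nil => simp [hSA]
      | cons ta la' =>
        simp only [hSA]
        have hta := ea ta (by simp)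
        have hcard : (R blk p I ta).card = (ta :: la').count ta := by
          rw [hR, cb0 ta (by simp), add_zero]
        rw [← hcard, ← sum_rank]
        refine Finset.sum_congr rfl fun x hx => ?_
        refine hval x ta la' lb hx (hsubA x (by simpa [hSA] using hx)).2.1 sa.of_cons sb
          (fun t ht => ea t (List.mem_cons_of_mem _ ht)) eb ?_
        intro t'
        rw [List.count_cons]
        by_cases h : t' = ta
        · subst h
          simp
        · have h' : ¬ (ta = t') := fun h' => h h'.symm
          simp [h, h']
    · cases lb with
      | nil => simp [hSB]
      | cons tb lb' =>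
        simp only [hSB]
        by_cases hav : avB s la tb
        · rw [if_pos hav, if_pos hav]
          have htb := eb tb (by simp)
          have hcard : (R blk p I tb).card = (tb :: lb').count tb := by
            rw [hR, ca0 tb (by simp), zero_add]
          rw [← hcard, ← sum_rank]
          refine Finset.sum_congr rfl fun x hx => ?_
          refine hval x tb la lb' hx (hsubB x (by simpa [hSB, hav] using hx)).2.1 sa sb.of_cons
            ea (fun t ht => eb t (List.mem_cons_of_mem _ ht)) ?_
          intro t'
          rw [List.count_cons]
          by_cases h : t' = tb
          · subst h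
            simp
          · have h' : ¬ (tb = t') := fun h' => h h'.symm
            simp [h, h']
        · rw [if_neg hav, if_neg hav, Finset.sum_empty]

end

end Pool.Agent.Y409.Gr
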