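import Pool.Agent.Y409.Gr1

set_option autoImplicit false

/-! Evaluation of the placement polynomial, with two derivatives, at `-1/q`. -/

namespace Pool.Agent.Y409.Gr

open Polynomial

/-- Value, first derivative and half the second derivative, each as a difference of naturals. -/
inductive NJ : Type
  | mk (a0 b0 a1 b1 a2 b2 : ℕ) : NJ

def add : NJ → NJ → NJ
  | .mk a0 b0 a1 b1 a2 b2, .mk c0 d0 c1 d1 c2 d2 =>
    .mk (Nat.add a0 c0) (Nat.add b0 d0) (Nat.add a1 c1) (Nat.add b1 d1) (Nat.add a2 c2) (Nat.add b2 d2)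

def zero : NJ := .mk 0 0 0 0 0 0
def one : NJ := .mk 1 0 0 0 0 0

def asc (q : ℕ) : NJ → NJ
  | .mk a0 b0 a1 b1 a2 b2 => .mk (Nat.mul q a0) (Nat.mul q b0) (Nat.mul q a1) (Nat.mul q b1) (Nat.mul q a2) (Nat.mul q b2)

def des (q : ℕ) : NJ → NJ
  | .mk a0 b0 a1 b1 a2 b2 => .mk b0 a0 (Nat.add (Nat.mul q a0) b1) (Nat.add (Nat.mul q b0) a1)
      (Nat.add (Nat.mul q a1) b2) (Nat.add (Nat.mul q b1) a2)

def fN {β : Type} (n : ℕ) (k : ℕ → β) : β := Nat.rec (k 0) (fun m _ => k (Nat.succ m)) n

def fJ {β : Type} (v : NJ) (k : NJ → β) : β :=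
  match v with
  | .mk a0 b0 a1 b1 a2 b2 => fN a0 fun a0 => fN b0 fun b0 => fN a1 fun a1 => fN b1 fun b1 =>
      fN a2 fun a2 => fN b2 fun b2 => k (.mk a0 b0 a1 b1 a2 b2)

def fL {β : Type} : List NJ → (List NJ → β) → β
  | [], k => k []
  | v :: l, k => fJ v fun v' => fL l fun l' => k (v' :: l')

/-- A cell: the values after placing each of the remaining elements of the current block of
either chain, with their sums. -/
inductive Cl : Type
  | mk (F : List NJ) (S : NJ) (G : List NJ) (T : NJ) : Cl

def fC {β : Type} (c : Cl) (k : Cl → β) : β :=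
  match c with
  | .mk F S G T => fL F fun F => fJ S fun S => fL G fun G => fJ T fun T => k (.mk F S G T)

def fR {β : Type} : List Cl → (List Cl → β) → β
  | [], k => k []
  | v :: l, k => fC v fun v' => fR l fun l' => k (v' :: l')

def tot : List NJ → NJ
  | [] => zero
  | v :: l => add v (tot l)

def sufs : List NJ → List NJ
  | [] => [zero]
  | v :: l => match sufs l with
    | [] => []
    | s :: r => add v s :: s :: r

def comb (q : ℕ) (c : NJ) : NJ → List NJ → List NJ → List NJ
  | _, _, [] => []
  | pre, [], s :: _ => [add c (add (des q pre) (asc q s))]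
  | pre, f :: fs, s :: ss => add c (add (des q pre) (asc q s)) :: comb q c (add pre f) fs ss

/-- own list: `t` placed block, `l'` remaining own chain, `Fs`, `S` the data of the child,
`c` the contribution of the other chain -/
def own (q : ℕ) (t : ℕ) (l' : List ℕ) (Fs : List NJ) (S c : NJ) : List NJ :=
  match l' with
  | [] => [c]
  | t' :: _ => cond (Nat.beq t' t) (comb q c zero Fs (sufs Fs)) [add c (asc q S)]

def oth (q : ℕ) (t t' : ℕ) (S : NJ) : NJ := cond (Nat.blt t' t) (des q S) (asc q S)

/-- the F list of the cell (t :: la', lb), child cell (la', lb) -/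
def mkF (q t : ℕ) (la' lb : List ℕ) (c : Cl) : List NJ :=
  match c with
  | .mk F S _ T => match lb with
    | [] => match la' with
      | [] => [one]
      | _ :: _ => own q t la' F S zero
    | tb :: _ => own q t la' F S (oth q t tb T)

/-- the G list of the cell (la, t :: lb'), child cell (la, lb') -/
def mkG (s q t : ℕ) (la lb' : List ℕ) (c : Cl) : List NJ :=
  match c with
  | .mk _ S G T => match la with
    | [] => match lb' with
      | [] => [one]
      | _ :: _ => own q t lb' G T zero
    | ta :: _ => cond (Nat.ble (Nat.div ta 2) s) (cond (Nat.blt s (Nat.div t 2)) [] (own q t lb' G T (oth q t ta S)))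
        (own q t lb' G T (oth q t ta S))

def mkCl (F G : List NJ) : Cl := .mk F (tot F) G (tot G)

/-- first row: la = [] -/
def row0 (s q : ℕ) : List ℕ → List Cl
  | [] => [.mk [] zero [] zero]
  | t :: lb' => match row0 s q lb' with
    | [] => []
    | c :: r => mkCl [] (mkG s q t [] lb' c) :: c :: r

/-- row for t :: la' from the row of la' -/
def rowS (s q t : ℕ) (la' : List ℕ) : List ℕ → List Cl → List Cl
  | _, [] => []
  | [], c :: _ => [mkCl (mkF q t la' [] c) []]
  | tb :: lb', c :: cs => match rowS s q t la' lb' cs with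
    | [] => []
    | d :: ds => mkCl (mkF q t la' (tb :: lb') c) (mkG s q tb (t :: la') lb' d) :: d :: ds

/-- loop: `ra` the reversed rest of chain A, `la'` the part done -/
def loop (s q : ℕ) (lb : List ℕ) : List ℕ → List ℕ → List Cl → List Cl
  | [], _, r => r
  | t :: ra, la', r => fR r fun r' => loop s q lb ra (t :: la') (rowS s q t la' lb r')

def fin (q : ℕ) (r : List Cl) : NJ :=
  match r with
  | [] => zero
  | .mk _ S _ T :: _ => asc q (add S T)

def run (s q : ℕ) (la lb : List ℕ) : NJ := fin q (loop s q lb la.reverse [] (row0 s q lb))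

/-! ### Semantics -/

theorem fN_eq {β : Type} (n : ℕ) (k : ℕ → β) : fN n k = k n := by
  cases n <;> rfl

theorem fJ_eq {β : Type} (v : NJ) (k : NJ → β) : fJ v k = k v := by
  cases v
  simp only [fJ, fN_eq]

theorem fL_eq {β : Type} : ∀ (l : List NJ) (k : List NJ → β), fL l k = k l
  | [], k => rfl
  | v :: l, k => by rw [fL, fJ_eq, fL_eq l]

theorem fC_eq {β : Type} (v : Cl) (k : Cl → β) : fC v k = k v := by
  cases v
  simp only [fC, fJ_eq, fL_eq]

theorem fR_eq {β : Type} : ∀ (l : List Cl) (k : List Cl → β), fR l k = k l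
  | [], k => rfl
  | v :: l, k => by rw [fR, fC_eq, fR_eq l]

/-- The triple represented. -/
noncomputable def val : NJ → ℝ × ℝ × ℝ
  | .mk a0 b0 a1 b1 a2 b2 => ((a0 : ℝ) - b0, (a1 : ℝ) - b1, (a2 : ℝ) - b2)

/-- Multiplication of a 2-jet at `-1/q` by the variable, times `q`. -/
noncomputable def DQ (q : ℕ) : (ℝ × ℝ × ℝ) →+ (ℝ × ℝ × ℝ) where
  toFun v := (-v.1, (q : ℝ) * v.1 - v.2.1, (q : ℝ) * v.2.1 - v.2.2)
  map_zero' := by simp
  map_add' v w := by
    refine Prod.ext ?_ (Prod.ext ?_ ?_) <;> simp <;> ring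

noncomputable def AQ (q : ℕ) : (ℝ × ℝ × ℝ) →+ (ℝ × ℝ × ℝ) where
  toFun v := (q : ℝ) • v
  map_zero' := by simp
  map_add' v w := smul_add _ _ _

theorem val_add (v w : NJ) : val (add v w) = val v + val w := by
  cases v; cases w
  simp only [add, val, Nat.add_eq, Nat.cast_add, Prod.mk_add_mk, Prod.mk.injEq]
  refine ⟨?_, ?_, ?_⟩ <;> ring

theorem val_zero : val zero = 0 := by
  simp [zero, val]

theorem val_one : val one = (1, 0, 0) := by
  simp [one, val]

theorem val_asc (q : ℕ) (v : NJ) : val (asc q v) = AQ q (val v) := by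
  cases v
  simp only [asc, val, AQ, AddMonoidHom.coe_mk, ZeroHom.coe_mk, Prod.smul_mk, smul_eq_mul,
    Nat.mul_eq, Nat.cast_mul, Prod.mk.injEq]
  refine ⟨?_, ?_, ?_⟩ <;> ring

theorem val_des (q : ℕ) (v : NJ) : val (des q v) = DQ q (val v) := by
  cases v
  simp only [des, val, DQ, AddMonoidHom.coe_mk, ZeroHom.coe_mk, Nat.mul_eq, Nat.add_eq,
    Nat.cast_mul, Nat.cast_add, Prod.mk.injEq]
  refine ⟨?_, ?_, ?_⟩ <;> ring

theorem val_tot : ∀ l : List NJ, val (tot l) = (l.map val).sum
  | [] => by simp [tot, val_zero]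
  | v :: l => by simp [tot, val_add, val_tot l]

theorem sufs_spec : ∀ l : List NJ, ∃ s r, sufs l = s :: r ∧ val s = (l.map val).sum
  | [] => ⟨zero, [], rfl, by simp [val_zero]⟩
  | v :: l => by
    obtain ⟨s, r, h1, h2⟩ := sufs_spec l
    refine ⟨add v s, s :: r, ?_, ?_⟩
    · rw [sufs, h1]
    · simp [val_add, h2]

theorem comb_spec (q : ℕ) (c : NJ) : ∀ (F : List NJ) (pre : NJ),
    (comb q c pre F (sufs F)).map val = (List.range (F.length + 1)).map (fun j =>
      val c + (DQ q (val pre + ((F.map val).take j).sum) + AQ q ((F.map val).drop j).sum))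
  | [], pre => by
    simp [sufs, comb, val_add, val_des, val_asc, val_zero]
  | f :: fs, pre => by
    obtain ⟨s, r, h1, h2⟩ := sufs_spec fs
    have h3 : sufs (f :: fs) = add f s :: sufs fs := by rw [sufs, h1]
    rw [h3, comb, List.map_cons, comb_spec q c fs (add pre f), List.length_cons,
      List.range_succ_eq_map (n := fs.length + 1), List.map_cons, List.map_map]
    congr 1
    · simp [val_add, val_des, val_asc, h2]
    · apply List.map_congr_left
      intro j _
      simp [val_add, add_assoc]

theorem own_spec (q t : ℕ) (l' : List ℕ) (Fs : List NJ) (S c : NJ) (L : List (ℝ × ℝ × ℝ))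
    (hF : Fs.map val = L) (hS : val S = L.sum) :
    (own q t l' Fs S c).map val = match l' with
      | [] => [val c]
      | t' :: _ => if t' = t then (List.range (L.length + 1)).map (fun j =>
          val c + (DQ q (L.take j).sum + AQ q (L.drop j).sum)) else [val c + AQ q L.sum] := by
  cases l' with
  | nil => simp [own]
  | cons t' l'' =>
    simp only [own]
    by_cases h : t' = t
    · have hb : Nat.beq t' t = true := by rw [h]; exact Nat.beq_refl t
      rw [hb, cond_true, if_pos h, comb_spec, ← hF, List.length_map]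
      simp [val_zero]
    · have hb : Nat.beq t' t = false := by
        cases hc : Nat.beq t' t with
        | false => rfl
        | true => exact absurd (Nat.eq_of_beq_eq_true hc) h
      rw [hb, cond_false, if_neg h, List.map_cons, List.map_nil, val_add, val_asc, hS]

theorem oth_spec (q t t' : ℕ) (S : NJ) :
    val (oth q t t' S) = if t' < t then DQ q (val S) else AQ q (val S) := by
  unfold oth
  by_cases h : t' < t
  · have hb : Nat.blt t' t = true := by simpa using h
    rw [hb, cond_true, if_pos h, val_des]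
  · have hb : Nat.blt t' t = false := by
      rw [← Bool.not_eq_true]
      simpa using h
    rw [hb, cond_false, if_neg h, val_asc]

/-- 2-jets at `-1/q`. -/
noncomputable def jet (q : ℕ) : ℝ[X] →+ (ℝ × ℝ × ℝ) where
  toFun P := (P.eval (-1 / (q : ℝ)), P.derivative.eval (-1 / (q : ℝ)),
    P.derivative.derivative.eval (-1 / (q : ℝ)) / 2)
  map_zero' := by simp
  map_add' P Q := by
    refine Prod.ext ?_ (Prod.ext ?_ ?_) <;> simp <;> ring

theorem jet_X (q : ℕ) (hq : (q : ℝ) ≠ 0) (P : ℝ[X]) :
    (q : ℝ) • jet q (X * P) = DQ q (jet q P) := by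
  simp only [jet, DQ, AddMonoidHom.coe_mk, ZeroHom.coe_mk, derivative_mul, derivative_X, eval_mul,
    eval_X, eval_add, eval_one, Prod.smul_mk, smul_eq_mul, Prod.mk.injEq, one_mul, derivative_add]
  refine ⟨?_, ?_, ?_⟩ <;> field_simp <;> ring

section

variable (s q : ℕ)

/-- The scaled 2-jets of `V`. -/
noncomputable def E (n : ℕ) (la lb : List ℕ) (b j : ℕ) : ℝ × ℝ × ℝ :=
  ((q : ℝ) ^ n) • jet q (V s n la lb b j)

noncomputable def opf (t j b j0 : ℕ) (m : ℝ × ℝ × ℝ) : ℝ × ℝ × ℝ :=
  if t < b ∨ (t = b ∧ j < j0) then DQ q m else AQ q m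

theorem DQ_smul (c : ℝ) (m : ℝ × ℝ × ℝ) : DQ q (c • m) = c • DQ q m := by
  simp only [DQ, AddMonoidHom.coe_mk, ZeroHom.coe_mk]
  refine Prod.ext ?_ (Prod.ext ?_ ?_) <;> simp <;> ring

theorem jet_fac (hq : (q : ℝ) ≠ 0) (n t j b j0 : ℕ) (P : ℝ[X]) :
    ((q : ℝ) ^ (n + 1)) • jet q (fac t j b j0 * P) = opf q t j b j0 (((q : ℝ) ^ n) • jet q P) := by
  unfold fac opf
  split_ifs with h
  · rw [DQ_smul, ← jet_X q hq, smul_smul, pow_succ]
  · rw [one_mul, AQ]
    simp only [AddMonoidHom.coe_mk, ZeroHom.coe_mk]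
    rw [smul_smul, pow_succ, mul_comm]

/-- Lists of the values after one more placement in the first chain. -/
noncomputable def FE (n : ℕ) (la lb : List ℕ) : List (ℝ × ℝ × ℝ) :=
  match la with
  | [] => []
  | t :: la' => (List.range ((t :: la').count t)).map (E s q n la' lb t)

/-- Lists of the values after one more placement in the second chain. -/
noncomputable def GE (n : ℕ) (la lb : List ℕ) : List (ℝ × ℝ × ℝ) :=
  match lb with
  | [] => []
  | t :: lb' => if avB s la t then (List.range ((t :: lb').count t)).map (E s q n la lb' t) else []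

noncomputable def pA (n : ℕ) (la lb : List ℕ) (b j0 : ℕ) : ℝ × ℝ × ℝ :=
  match la with
  | [] => 0
  | t :: la' => ∑ j ∈ Finset.range ((t :: la').count t), opf q t j b j0 (E s q n la' lb t j)

noncomputable def pB (n : ℕ) (la lb : List ℕ) (b j0 : ℕ) : ℝ × ℝ × ℝ :=
  match lb with
  | [] => 0
  | t :: lb' => if avB s la t then
      ∑ j ∈ Finset.range ((t :: lb').count t), opf q t j b j0 (E s q n la lb' t j) else 0

theorem E_succ (hq : (q : ℝ) ≠ 0) (n : ℕ) (la lb : List ℕ) (b j0 : ℕ) :
    E s q (n + 1) la lb b j0 = pA s q n la lb b j0 + pB s q n la lb b j0 := by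
  unfold E pA pB
  rw [V_succ, map_add, smul_add]
  congr 1
  · cases la with
    | nil => simp
    | cons t la' =>
      simp only
      rw [map_sum, Finset.smul_sum]
      refine Finset.sum_congr rfl fun j _ => ?_
      rw [jet_fac q hq]
      rfl
  · cases lb with
    | nil => simp
    | cons t lb' =>
      simp only
      split_ifs with h
      · rw [map_sum, Finset.smul_sum]
        refine Finset.sum_congr rfl fun j _ => ?_
        rw [jet_fac q hq]
        rfl
      · simp

theorem sum_list_range {M : Type*} [AddCommMonoid M] (f : ℕ → M) (n : ℕ) :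
    ((List.range n).map f).sum = ∑ j ∈ Finset.range n, f j := by
  induction n with
  | zero => simp
  | succ n ih => rw [List.range_succ, List.map_append, List.sum_append, ih, Finset.sum_range_succ]; simp

end

end Pool.Agent.Y409.Gr
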