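import Pool.Agent.Y409.Gr2

set_option autoImplicit false

/-! Correctness of the evaluation. -/

namespace Pool.Agent.Y409.Gr

open Polynomial

theorem split_sum {M : Type*} [AddCommMonoid M] (D A : M →+ M) (f : ℕ → M) (c j0 : ℕ)
    (h : j0 ≤ c) : (∑ j ∈ Finset.range c, if j < j0 then D (f j) else A (f j)) =
      D ((((List.range c).map f).take j0).sum) + A ((((List.range c).map f).drop j0).sum) := by
  obtain ⟨d, rfl⟩ := Nat.exists_eq_add_of_le h
  rw [List.range_add, List.map_append, List.take_left' (by simp), List.drop_left' (by simp),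
    Finset.sum_range_add, sum_list_range, List.map_map, sum_list_range, map_sum, map_sum]
  congr 1
  · refine Finset.sum_congr rfl fun j hj => ?_
    rw [if_pos (Finset.mem_range.mp hj)]
  · refine Finset.sum_congr rfl fun j hj => ?_
    rw [if_neg (by omega)]
    rfl

section

variable (s q : ℕ)

theorem pA_ne (n : ℕ) (ta : ℕ) (la' lb : List ℕ) (b j0 : ℕ) (h : ta ≠ b) :
    pA s q n (ta :: la') lb b j0 = if ta < b then DQ q (FE s q n (ta :: la') lb).sum
      else AQ q (FE s q n (ta :: la') lb).sum := by
  unfold pA FE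
  simp only
  rw [sum_list_range]
  by_cases hb : ta < b
  · rw [if_pos hb, map_sum]
    refine Finset.sum_congr rfl fun j _ => ?_
    rw [opf, if_pos (Or.inl hb)]
  · rw [if_neg hb, map_sum]
    refine Finset.sum_congr rfl fun j _ => ?_
    rw [opf, if_neg]
    rintro (h1 | ⟨h1, _⟩)
    · exact hb h1
    · exact h h1

theorem pA_zero (n : ℕ) (la lb : List ℕ) :
    pA s q n la lb 0 0 = AQ q (FE s q n la lb).sum := by
  cases la with
  | nil => simp [pA, FE]
  | cons ta la' =>
    unfold pA FE
    simp only
    rw [sum_list_range, map_sum]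
    refine Finset.sum_congr rfl fun j _ => ?_
    rw [opf, if_neg]
    omega

theorem pA_eq (n : ℕ) (t : ℕ) (la' lb : List ℕ) (j0 : ℕ) (h : j0 ≤ (t :: la').count t) :
    pA s q n (t :: la') lb t j0 = DQ q ((FE s q n (t :: la') lb).take j0).sum +
      AQ q ((FE s q n (t :: la') lb).drop j0).sum := by
  unfold pA FE
  simp only
  rw [← split_sum (DQ q) (AQ q) _ _ _ h]
  refine Finset.sum_congr rfl fun j _ => ?_
  simp [opf]

theorem pB_ne (n : ℕ) (tb : ℕ) (la lb' : List ℕ) (b j0 : ℕ) (h : tb ≠ b) :
    pB s q n la (tb :: lb') b j0 = if tb < b then DQ q (GE s q n la (tb :: lb')).sum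
      else AQ q (GE s q n la (tb :: lb')).sum := by
  unfold pB GE
  simp only
  by_cases hav : avB s la tb
  · rw [if_pos hav, if_pos hav, sum_list_range]
    by_cases hb : tb < b
    · rw [if_pos hb, map_sum]
      refine Finset.sum_congr rfl fun j _ => ?_
      rw [opf, if_pos (Or.inl hb)]
    · rw [if_neg hb, map_sum]
      refine Finset.sum_congr rfl fun j _ => ?_
      rw [opf, if_neg]
      rintro (h1 | ⟨h1, _⟩)
      · exact hb h1
      · exact h h1
  · rw [if_neg hav, if_neg hav]
    simp

theorem pB_zero (n : ℕ) (la lb : List ℕ) :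
    pB s q n la lb 0 0 = AQ q (GE s q n la lb).sum := by
  cases lb with
  | nil => simp [pB, GE]
  | cons tb lb' =>
    unfold pB GE
    simp only
    by_cases hav : avB s la tb
    · rw [if_pos hav, if_pos hav, sum_list_range, map_sum]
      refine Finset.sum_congr rfl fun j _ => ?_
      rw [opf, if_neg]
      omega
    · rw [if_neg hav, if_neg hav]
      simp

theorem pB_eq (n : ℕ) (t : ℕ) (la lb' : List ℕ) (j0 : ℕ) (h : j0 ≤ (t :: lb').count t)
    (hav : avB s la t) :
    pB s q n la (t :: lb') t j0 = DQ q ((GE s q n la (t :: lb')).take j0).sum +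
      AQ q ((GE s q n la (t :: lb')).drop j0).sum := by
  unfold pB GE
  simp only
  rw [if_pos hav, if_pos hav, ← split_sum (DQ q) (AQ q) _ _ _ h]
  refine Finset.sum_congr rfl fun j _ => ?_
  simp [opf]

/-- The cell carries the right values. -/
def CellOK (n : ℕ) (la lb : List ℕ) : Cl → Prop
  | .mk F S G T => F.map val = FE s q n la lb ∧ val S = (FE s q n la lb).sum ∧
      G.map val = GE s q n la lb ∧ val T = (GE s q n la lb).sum

theorem mkCl_spec (n : ℕ) (la lb : List ℕ) (F G : List NJ) (hF : F.map val = FE s q n la lb)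
    (hG : G.map val = GE s q n la lb) : CellOK s q n la lb (mkCl F G) := by
  refine ⟨hF, ?_, hG, ?_⟩
  · rw [val_tot, hF]
  · rw [val_tot, hG]

theorem FE_length (n t : ℕ) (la' lb : List ℕ) :
    (FE s q n (t :: la') lb).length = (t :: la').count t := by
  simp [FE]

theorem GE_length (n t : ℕ) (la lb' : List ℕ) (hav : avB s la t) :
    (GE s q n la (t :: lb')).length = (t :: lb').count t := by
  simp [GE, hav]

theorem E_zero (la lb : List ℕ) (b j : ℕ) : E s q 0 la lb b j = (1, 0, 0) := by
  simp [E, V, jet]

theorem count_head_ne (t t' : ℕ) (l : List ℕ) (hs : (t :: t' :: l).Pairwise (· ≤ ·)) (h : t' ≠ t) :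
    (t :: t' :: l).count t = 1 := by
  rw [List.count_cons_self]
  have h0 : (t' :: l).count t = 0 := by
    rw [List.count_eq_zero]
    intro hm
    have h1 : t ≤ t' := List.rel_of_pairwise_cons hs (by simp)
    rcases List.mem_cons.mp hm with h2 | h2
    · exact h h2.symm
    · have h3 : t' ≤ t := List.rel_of_pairwise_cons hs.of_cons h2
      omega
  omega

theorem mkF_spec (hq : (q : ℝ) ≠ 0) (n t : ℕ) (la' lb : List ℕ) (c : Cl)
    (hs : (t :: la').Pairwise (· ≤ ·)) (ht : t % 2 = 0) (eb : ∀ x ∈ lb, x % 2 = 1)
    (hn : n = la'.length + lb.length) (hc : CellOK s q (n - 1) la' lb c) :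
    (mkF q t la' lb c).map val = FE s q n (t :: la') lb := by
  obtain ⟨F, S, G, T⟩ := c
  obtain ⟨h1, h2, h3, h4⟩ := hc
  by_cases hterm : la' = [] ∧ lb = []
  · obtain ⟨rfl, rfl⟩ := hterm
    simp only [List.length_nil, add_zero] at hn
    subst hn
    simp [mkF, FE, val_one, E_zero]
  · obtain ⟨m, rfl⟩ : ∃ m, n = m + 1 := by
      rcases n with _ | m
      · exfalso
        apply hterm
        exact ⟨List.eq_nil_of_length_eq_zero (by omega), List.eq_nil_of_length_eq_zero (by omega)⟩
      · exact ⟨m, rfl⟩
    rw [Nat.add_sub_cancel] at h1 h2 h3 h4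
    -- contribution of the other chain
    have key : ∀ c0 : NJ, (∀ j, val c0 = pB s q m la' lb t j) →
        (own q t la' F S c0).map val = FE s q (m + 1) (t :: la') lb := by
      intro c0 hc0
      rw [own_spec q t la' F S c0 _ h1 h2]
      cases la' with
      | nil =>
        simp only [FE, List.count_cons_self, List.count_nil]
        rw [List.range_succ, List.map_append]
        simp only [List.range_zero, List.map_nil, List.nil_append, List.map_cons]
        rw [E_succ s q hq, ← hc0 0]
        simp [pA]
      | cons t' l'' =>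
        simp only
        by_cases h : t' = t
        · subst h
          rw [if_pos rfl, FE_length]
          conv_rhs => rw [FE]
          rw [List.count_cons_self (l := t' :: l'')]
          apply List.map_congr_left
          intro j hj
          rw [List.mem_range] at hj
          rw [E_succ s q hq, ← hc0 j, pA_eq s q m t' l'' lb j (by omega)]
          abel
        · rw [if_neg h]
          conv_rhs => rw [FE]
          rw [count_head_ne t t' l'' hs h]
          simp only [List.range_one, List.map_cons, List.map_nil]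
          rw [E_succ s q hq, ← hc0 0, pA_ne s q m t' l'' lb t 0 h, if_neg]
          · rw [add_comm]
          · have : t ≤ t' := List.rel_of_pairwise_cons hs (by simp)
            omega
    cases lb with
    | nil =>
      cases la' with
      | nil => exact absurd ⟨rfl, rfl⟩ hterm
      | cons t' l'' =>
        simp only [mkF]
        apply key
        intro j
        simp [val_zero, pB]
    | cons tb lb' =>
      simp only [mkF]
      apply key
      intro j
      have htb := eb tb (by simp)
      rw [oth_spec, h4, pB_ne s q m tb la' lb' t j (by omega)]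

theorem avB_iff_cond {β : Type} (t ta : ℕ) (la' : List ℕ) (x : List β) :
    cond (Nat.ble (Nat.div ta 2) s) (cond (Nat.blt s (Nat.div t 2)) [] x) x =
      if avB s (ta :: la') t then x else [] := by
  have e1 : Nat.div ta 2 = ta / 2 := rfl
  have e2 : Nat.div t 2 = t / 2 := rfl
  rw [e1, e2]
  by_cases h1 : ta / 2 ≤ s
  · have hb : Nat.ble (ta / 2) s = true := Nat.ble_eq_true_of_le h1
    rw [hb, cond_true]
    by_cases h2 : s < t / 2
    · have hb2 : Nat.blt s (t / 2) = true := by simpa using h2
      rw [hb2, cond_true, if_neg]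
      simp only [avB]
      tauto
    · have hb2 : Nat.blt s (t / 2) = false := by
        rw [← Bool.not_eq_true]
        simpa using h2
      rw [hb2, cond_false, if_pos]
      simp only [avB]
      tauto
  · have hb : Nat.ble (ta / 2) s = false := by
      rw [← Bool.not_eq_true]
      intro h
      exact h1 (Nat.le_of_ble_eq_true h)
    rw [hb, cond_false, if_pos]
    simp only [avB]
    tauto

theorem mkG_spec (hq : (q : ℝ) ≠ 0) (n t : ℕ) (la lb' : List ℕ) (c : Cl)
    (hs : (t :: lb').Pairwise (· ≤ ·)) (ht : t % 2 = 1) (ea : ∀ x ∈ la, x % 2 = 0)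
    (hn : n = la.length + lb'.length) (hc : CellOK s q (n - 1) la lb' c) :
    (mkG s q t la lb' c).map val = GE s q n la (t :: lb') := by
  obtain ⟨F, S, G, T⟩ := c
  obtain ⟨h1, h2, h3, h4⟩ := hc
  by_cases hterm : la = [] ∧ lb' = []
  · obtain ⟨rfl, rfl⟩ := hterm
    simp only [List.length_nil, add_zero] at hn
    subst hn
    simp [mkG, GE, val_one, E_zero, avB]
  · obtain ⟨m, rfl⟩ : ∃ m, n = m + 1 := by
      rcases n with _ | m
      · exfalso
        apply hterm
        exact ⟨List.eq_nil_of_length_eq_zero (by omega), List.eq_nil_of_length_eq_zero (by omega)⟩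
      · exact ⟨m, rfl⟩
    rw [Nat.add_sub_cancel] at h1 h2 h3 h4
    have key : ∀ c0 : NJ, (∀ j, val c0 = pA s q m la lb' t j) → avB s la t →
        (own q t lb' G T c0).map val = GE s q (m + 1) la (t :: lb') := by
      intro c0 hc0 hav
      rw [own_spec q t lb' G T c0 _ h3 h4]
      cases lb' with
      | nil =>
        simp only [GE, List.count_cons_self, List.count_nil]
        rw [if_pos hav, List.range_succ, List.map_append]
        simp only [List.range_zero, List.map_nil, List.nil_append, List.map_cons]
        rw [E_succ s q hq, ← hc0 0]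
        simp [pB]
      | cons t' l'' =>
        simp only
        by_cases h : t' = t
        · subst h
          rw [if_pos rfl, GE_length s q m t' la l'' hav]
          conv_rhs => rw [GE]
          rw [if_pos hav, List.count_cons_self (l := t' :: l'')]
          apply List.map_congr_left
          intro j hj
          rw [List.mem_range] at hj
          rw [E_succ s q hq, ← hc0 j, pB_eq s q m t' la l'' j (by omega) hav]
        · rw [if_neg h]
          conv_rhs => rw [GE]
          rw [if_pos hav, count_head_ne t t' l'' hs h]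
          simp only [List.range_one, List.map_cons, List.map_nil]
          rw [E_succ s q hq, ← hc0 0, pB_ne s q m t' la l'' t 0 h, if_neg]
          have : t ≤ t' := List.rel_of_pairwise_cons hs (by simp)
          omega
    cases la with
    | nil =>
      cases lb' with
      | nil => exact absurd ⟨rfl, rfl⟩ hterm
      | cons t' l'' =>
        simp only [mkG]
        apply key
        · intro j
          simp [val_zero, pA]
        · trivial
    | cons ta la' =>
      simp only [mkG]
      rw [avB_iff_cond s t ta la']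
      by_cases hav : avB s (ta :: la') t
      · rw [if_pos hav]
        apply key _ _ hav
        intro j
        have hta := ea ta (by simp)
        rw [oth_spec, h2, pA_ne s q m ta la' lb' t j (by omega)]
      · rw [if_neg hav]
        simp [GE, hav]

/-- The row carries the right values. -/
def RowOK (la : List ℕ) : List ℕ → List Cl → Prop
  | [], r => ∃ c, r = [c] ∧ CellOK s q (la.length - 1) la [] c
  | t :: lb', r => ∃ c r', r = c :: r' ∧ CellOK s q (la.length + lb'.length) la (t :: lb') c ∧
      RowOK la lb' r'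

theorem RowOK.head {la lb : List ℕ} {r : List Cl} (h : RowOK s q la lb r) :
    ∃ c r', r = c :: r' ∧ CellOK s q (la.length + lb.length - 1) la lb c := by
  cases lb with
  | nil =>
    obtain ⟨c, h1, h2⟩ := h
    exact ⟨c, [], h1, by simpa using h2⟩
  | cons t lb' =>
    obtain ⟨c, r', h1, h2, _⟩ := h
    exact ⟨c, r', h1, by simpa using h2⟩

theorem row0_spec (hq : (q : ℝ) ≠ 0) : ∀ lb : List ℕ, lb.Pairwise (· ≤ ·) →
    (∀ x ∈ lb, x % 2 = 1) → RowOK s q [] lb (row0 s q lb)
  | [], _, _ => ⟨_, rfl, by simp [CellOK, FE, GE, val_zero]⟩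
  | t :: lb', hs, eb => by
    have ih := row0_spec hq lb' hs.of_cons (fun x hx => eb x (List.mem_cons_of_mem _ hx))
    obtain ⟨c, r', h1, h2⟩ := ih.head
    refine ⟨mkCl [] (mkG s q t [] lb' c), c :: r', ?_, ?_, ?_⟩
    · rw [row0, h1]
    · apply mkCl_spec
      · simp [FE]
      · exact mkG_spec s q hq _ t [] lb' c hs (eb t (by simp)) (by simp) rfl h2
    · rw [← h1]
      exact ih

theorem rowS_spec (hq : (q : ℝ) ≠ 0) (t : ℕ) (la' : List ℕ) (hsa : (t :: la').Pairwise (· ≤ ·))
    (ea : ∀ x ∈ t :: la', x % 2 = 0) : ∀ (lb : List ℕ) (r : List Cl), lb.Pairwise (· ≤ ·) →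
    (∀ x ∈ lb, x % 2 = 1) → RowOK s q la' lb r → RowOK s q (t :: la') lb (rowS s q t la' lb r)
  | [], r, _, _, h => by
    obtain ⟨c, rfl, h2⟩ := h
    refine ⟨_, rfl, ?_⟩
    apply mkCl_spec
    · exact mkF_spec s q hq _ t la' [] c hsa (ea t (by simp)) (by simp) (by simp) (by simpa using h2)
    · simp [GE]
  | tb :: lb', r, hs, eb, h => by
    obtain ⟨c, r', rfl, h2, h3⟩ := h
    have ih := rowS_spec hq t la' hsa ea lb' r' hs.of_cons
      (fun x hx => eb x (List.mem_cons_of_mem _ hx)) h3
    obtain ⟨d, ds, h4, h5⟩ := ih.head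
    refine ⟨mkCl (mkF q t la' (tb :: lb') c) (mkG s q tb (t :: la') lb' d), d :: ds, ?_, ?_, ?_⟩
    · rw [rowS, h4]
    · apply mkCl_spec
      · refine mkF_spec s q hq _ t la' (tb :: lb') c hsa (ea t (by simp)) eb ?_ ?_
        · simp only [List.length_cons]; omega
        · have e : (t :: la').length + lb'.length - 1 = la'.length + lb'.length := by
            simp only [List.length_cons]; omega
          rw [e]
          exact h2
      · refine mkG_spec s q hq _ tb (t :: la') lb' d hs (eb tb (by simp)) ea rfl h5
    · rw [← h4]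
      exact ih

theorem loop_spec (hq : (q : ℝ) ≠ 0) (lb : List ℕ) (hsb : lb.Pairwise (· ≤ ·))
    (eb : ∀ x ∈ lb, x % 2 = 1) : ∀ (ra la' : List ℕ) (r : List Cl),
    (ra.reverse ++ la').Pairwise (· ≤ ·) → (∀ x ∈ ra.reverse ++ la', x % 2 = 0) →
    RowOK s q la' lb r → RowOK s q (ra.reverse ++ la') lb (loop s q lb ra la' r)
  | [], la', r, _, _, h => by simpa [loop] using h
  | t :: ra, la', r, hs, ea, h => by
    rw [loop, fR_eq]
    have e : (t :: ra).reverse ++ la' = ra.reverse ++ (t :: la') := by simp
    rw [e] at hs ea ⊢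
    refine loop_spec hq lb hsb eb ra (t :: la') _ hs ea ?_
    refine rowS_spec s q hq t la' (List.pairwise_append.mp hs).2.1 ?_ lb r hsb eb h
    intro x hx
    exact ea x (List.mem_append_right _ hx)

theorem run_spec (hq : (q : ℝ) ≠ 0) (la lb : List ℕ) (hsa : la.Pairwise (· ≤ ·))
    (hsb : lb.Pairwise (· ≤ ·)) (ea : ∀ x ∈ la, x % 2 = 0) (eb : ∀ x ∈ lb, x % 2 = 1) (n : ℕ)
    (hn : la.length + lb.length = n + 1) :
    val (run s q la lb) = E s q (n + 1) la lb 0 0 := by
  have h := loop_spec s q hq lb hsb eb la.reverse [] (row0 s q lb)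
    (by simpa using hsa) (by simpa using ea) (row0_spec s q hq lb hsb eb)
  rw [List.reverse_reverse, List.append_nil] at h
  obtain ⟨c, r', h1, h2⟩ := h.head
  rw [run, h1]
  obtain ⟨F, S, G, T⟩ := c
  obtain ⟨h3, h4, h5, h6⟩ := h2
  rw [hn, Nat.add_sub_cancel] at h4 h6
  rw [fin, val_asc, val_add, h4, h6, E_succ s q hq, pA_zero, pB_zero, map_add]

end

end Pool.Agent.Y409.Gr
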