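import Pool.Agent.Y409.Gr3

set_option autoImplicit false

/-! A graded naturally labelled poset with 166 elements: two chains of 28 blocks of twins with one
cross relation. -/

namespace Pool.Agent.Y409.Gr

open Polynomial

/-- Block `2 i + par` repeated as often as its size, for the sizes in the list. -/
def expand (par : ℕ) : ℕ → List ℕ → List ℕ
  | _, [] => []
  | i, k :: l => List.replicate k (2 * i + par) ++ expand par (i + 1) l

/-- Sizes of the even blocks. -/
def szA : List ℕ := [14, 1, 1, 1, 1, 1, 1, 1, 1, 1, 1, 1, 1, 1, 4, 4, 4, 4, 4, 4, 4, 4, 4, 4, 4, 4, 4, 4]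

/-- Sizes of the odd blocks. -/
def szB : List ℕ := [4, 4, 4, 4, 4, 4, 4, 4, 4, 4, 4, 4, 4, 4, 1, 1, 1, 1, 1, 1, 1, 1, 1, 1, 1, 1, 1, 14]

def LA : List ℕ := expand 0 0 szA
def LB : List ℕ := expand 1 0 szB

/-- The blocks of the labels, in the order of the labels. -/
def merge : ℕ → List ℕ → List ℕ → List ℕ
  | i, a :: la, b :: lb => List.replicate a (2 * i) ++ (List.replicate b (2 * i + 1) ++ merge (i + 1) la lb)
  | _, _, _ => []

def LL : List ℕ := merge 0 szA szB

/-- The block of a label. -/
def blk (x : ℕ) : ℕ := LL.getD x 55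

theorem LL_length : LL.length = 166 := by decide +kernel

theorem LL_sorted : LL.Pairwise (· ≤ ·) := by decide +kernel

theorem LL_le : ∀ t ∈ LL, t ≤ 55 := by decide +kernel

theorem LA_sorted : LA.Pairwise (· ≤ ·) := by decide +kernel

theorem LB_sorted : LB.Pairwise (· ≤ ·) := by decide +kernel

theorem LA_even : ∀ t ∈ LA, t % 2 = 0 := by decide +kernel

theorem LB_odd : ∀ t ∈ LB, t % 2 = 1 := by decide +kernel

theorem LA_le : ∀ t ∈ LA, t ≤ 55 := by decide +kernel

theorem LB_le : ∀ t ∈ LB, t ≤ 55 := by decide +kernel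

theorem LAB_length : LA.length + LB.length = 165 + 1 := by decide +kernel

theorem count_small : ∀ t < 56, LL.count t = LA.count t + LB.count t ∧ 0 < LL.count t := by
  decide +kernel

theorem count_all (t : ℕ) : LL.count t = LA.count t + LB.count t := by
  by_cases h : t < 56
  · exact (count_small t h).1
  · rw [List.count_eq_zero.mpr (fun h' => h (by have := LL_le t h'; omega)),
      List.count_eq_zero.mpr (fun h' => h (by have := LA_le t h'; omega)),
      List.count_eq_zero.mpr (fun h' => h (by have := LB_le t h'; omega))]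

theorem blk_le (x : ℕ) : blk x ≤ 55 := by
  unfold blk
  by_cases h : x < LL.length
  · rw [List.getD_eq_getElem _ _ h]
    exact LL_le _ (List.getElem_mem h)
  · rw [List.getD_eq_default _ _ (not_lt.mp h)]

theorem blk_mono (x y : ℕ) (h : x ≤ y) : blk x ≤ blk y := by
  by_cases hy : y < LL.length
  · rcases lt_or_eq_of_le h with h | h
    · have hx : x < LL.length := h.trans hy
      unfold blk
      rw [List.getD_eq_getElem _ _ hx, List.getD_eq_getElem _ _ hy]
      exact List.pairwise_iff_getElem.mp LL_sorted x y hx hy h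
    · rw [h]
  · have : blk y = 55 := by
      unfold blk
      rw [List.getD_eq_default _ _ (not_lt.mp hy)]
    rw [this]
    exact blk_le x

theorem card_count (d t : ℕ) : ∀ L : List ℕ,
    ((Finset.range L.length).filter (fun x => L.getD x d = t)).card = L.count t
  | [] => by simp
  | a :: l => by
    have ih := card_count d t l
    rw [Finset.card_filter] at ih ⊢
    rw [List.length_cons, Finset.sum_range_succ']
    simp only [List.getD_cons_succ, List.getD_cons_zero]
    rw [ih, List.count_cons]
    simp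

theorem hR0 (t : ℕ) : (R blk 166 0 t).card = LA.count t + LB.count t := by
  rw [← count_all, ← card_count 55 t LL, LL_length]
  congr 1
  ext x
  simp [R, blk]

theorem exists_blk (t : ℕ) (ht : t < 56) : ∃ x, x < 166 ∧ blk x = t := by
  have h := (count_small t ht).2
  rw [List.count_pos_iff] at h
  obtain ⟨i, hi, h2⟩ := List.getElem_of_mem h
  refine ⟨i, by rw [← LL_length]; exact hi, ?_⟩
  unfold blk
  rw [List.getD_eq_getElem _ _ hi, h2]

/-- Bit masks. -/
def mask (f : ℕ → Bool) : ℕ → ℕ
  | 0 => 0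
  | n + 1 => mask f n ||| (if f n then 2 ^ n else 0)

theorem testBit_mask (f : ℕ → Bool) (n y : ℕ) :
    (mask f n).testBit y = true ↔ y < n ∧ f y = true := by
  induction n with
  | zero => simp [mask]
  | succ n ih =>
    rw [mask, Nat.testBit_lor, Bool.or_eq_true, ih]
    by_cases hn : f n = true
    · rw [if_pos hn, Nat.testBit_two_pow, decide_eq_true_eq]
      constructor
      · rintro (⟨h1, h2⟩ | rfl)
        · exact ⟨by omega, h2⟩
        · exact ⟨by omega, hn⟩
      · rintro ⟨h1, h2⟩
        by_cases h : n = y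
        · exact Or.inr h
        · exact Or.inl ⟨by omega, h2⟩
    · rw [if_neg hn]
      simp only [Nat.zero_testBit, Bool.false_eq_true, or_false]
      constructor
      · rintro ⟨h1, h2⟩
        exact ⟨by omega, h2⟩
      · rintro ⟨h1, h2⟩
        refine ⟨?_, h2⟩
        by_contra h
        have : y = n := by omega
        rw [this] at h2
        exact hn h2

/-- The strict down-sets. -/
def prd (x : ℕ) : ℕ := mask (fun y => decide (rel 13 (blk y) (blk x))) 166

theorem prd_iff (x y : ℕ) : (prd x).testBit y = true ↔ y < 166 ∧ rel 13 (blk y) (blk x) := by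
  rw [prd, testBit_mask, decide_eq_true_eq]

theorem rel_trans (s a b c : ℕ) (h1 : rel s a b) (h2 : rel s b c) : rel s a c := by
  unfold rel at *
  omega

theorem rel_lt (s a b : ℕ) (h : rel s a b) : a < b := by
  unfold rel at h
  omega

/-- The partial order on the labels. -/
def le (a b : Fin 166) : Prop := a = b ∨ rel 13 (blk a) (blk b)

theorem le_refl' (a : Fin 166) : le a a := Or.inl rfl

theorem le_antisymm' (a b : Fin 166) (h1 : le a b) (h2 : le b a) : a = b := by
  rcases h1 with h1 | h1
  · exact h1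
  · rcases h2 with h2 | h2
    · exact h2.symm
    · have := rel_lt _ _ _ h1
      have := rel_lt _ _ _ h2
      omega

theorem le_trans' (a b c : Fin 166) (h1 : le a b) (h2 : le b c) : le a c := by
  rcases h1 with h1 | h1
  · rw [h1]; exact h2
  · rcases h2 with h2 | h2
    · rw [← h2]; exact Or.inr h1
    · exact Or.inr (rel_trans _ _ _ _ h1 h2)

theorem natural (a b : Fin 166) (h : le a b) : a ≤ b := by
  rcases h with h | h
  · exact h.le
  · have h1 := rel_lt _ _ _ h
    by_contra hc
    have h2 : (b : ℕ) ≤ a := by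
      have := not_le.mp hc
      exact this.le
    have := blk_mono _ _ h2
    omega

theorem exists_fin (t : ℕ) (ht : t < 56) : ∃ z : Fin 166, blk z = t := by
  obtain ⟨x, h1, h2⟩ := exists_blk t ht
  exact ⟨⟨x, h1⟩, h2⟩

theorem rank_min (a : Fin 166) (h : ∀ y, le y a → y = a) : blk a / 2 = 0 := by
  by_contra hc
  have h1 := blk_le a
  obtain ⟨z, hz⟩ := exists_fin (blk a - 2) (by omega)
  have h2 := h z (Or.inr (Or.inl (by rw [hz]; omega)))
  rw [h2] at hz
  omega

theorem rank_max (a : Fin 166) (h : ∀ y, le a y → y = a) : blk a / 2 = 27 := by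
  by_contra hc
  have h1 := blk_le a
  obtain ⟨z, hz⟩ := exists_fin (blk a + 2) (by omega)
  have h2 := h z (Or.inr (Or.inl (by rw [hz]; omega)))
  rw [h2] at hz
  omega

theorem rank_cover (a b : Fin 166) (h1 : le a b) (h2 : a ≠ b)
    (h3 : ∀ z, le a z → le z b → z = a ∨ z = b) : blk b / 2 = blk a / 2 + 1 := by
  rcases h1 with h1 | h1
  · exact absurd h1 h2
  have hb := blk_le b
  by_contra hc
  -- an intermediate block
  obtain ⟨t, ht, hr1, hr2⟩ : ∃ t, t < 56 ∧ rel 13 (blk a) t ∧ rel 13 t (blk b) := by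
    have hlt := rel_lt _ _ _ h1
    rcases h1 with h | h
    · exact ⟨blk a + 2, by omega, Or.inl (by omega), Or.inl (by omega)⟩
    · by_cases h5 : blk a / 2 + 1 ≤ 13
      · exact ⟨blk a + 2, by omega, Or.inl (by omega), Or.inr (by omega)⟩
      · exact ⟨blk a + 3, by omega, Or.inr (by omega), Or.inl (by omega)⟩
  obtain ⟨z, hz⟩ := exists_fin t ht
  have g1 := rel_lt _ _ _ hr1
  have g2 := rel_lt _ _ _ hr2
  rcases h3 z (Or.inr (by rw [hz]; exact hr1)) (Or.inr (by rw [hz]; exact hr2)) with h | h
  · rw [h] at hz; omega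
  · rw [h] at hz; omega

theorem graded (k : ℕ) (c : Fin (k + 1) → Fin 166)
    (h0 : ∀ y, le y (c 0) → y = c 0)
    (h1 : ∀ y, le (c (Fin.last k)) y → y = c (Fin.last k))
    (h2 : ∀ i : Fin k, le (c i.castSucc) (c i.succ) ∧ c i.castSucc ≠ c i.succ ∧
        ∀ z, le (c i.castSucc) z → le z (c i.succ) → z = c i.castSucc ∨ z = c i.succ) :
    k = 27 := by
  have key : ∀ i : ℕ, ∀ h : i < k + 1, blk (c ⟨i, h⟩) / 2 = i := by
    intro i
    induction i with
    | zero => intro h; exact rank_min _ h0
    | succ i ih =>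
      intro h
      obtain ⟨ha, hb, hc⟩ := h2 ⟨i, by omega⟩
      have := rank_cover _ _ ha hb hc
      have e1 : (⟨i, by omega⟩ : Fin k).castSucc = ⟨i, by omega⟩ := rfl
      have e2 : (⟨i, by omega⟩ : Fin k).succ = ⟨i + 1, h⟩ := rfl
      rw [e1, e2, ih (by omega)] at this
      exact this
  have := key k (by omega)
  have h3 := rank_max _ h1
  have e : Fin.last k = ⟨k, by omega⟩ := rfl
  rw [e] at h3
  omega

/-- The violated inequality, for the numbers computed. -/
def bviol : NJ → Bool
  | .mk a0 b0 a1 b1 a2 b2 =>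
    Nat.blt (Nat.add (Nat.add (Nat.mul a1 a1) (Nat.mul b1 b1)) (Nat.mul 2 (Nat.add (Nat.mul a0 b2) (Nat.mul b0 a2))))
     (Nat.add (Nat.mul 2 (Nat.add (Nat.mul a0 a2) (Nat.mul b0 b2))) (Nat.mul 2 (Nat.mul a1 b1)))

theorem bviol_spec (v : NJ) (h : bviol v = true) :
    (val v).2.1 ^ 2 < 2 * (val v).1 * (val v).2.2 := by
  obtain ⟨a0, b0, a1, b1, a2, b2⟩ := v
  have h' : a1 * a1 + b1 * b1 + 2 * (a0 * b2 + b0 * a2) < 2 * (a0 * a2 + b0 * b2) + 2 * (a1 * b1) := by
    simpa [bviol] using h
  have h2 : (a1 * a1 + b1 * b1 + 2 * (a0 * b2 + b0 * a2) : ℝ) <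
      2 * (a0 * a2 + b0 * b2) + 2 * (a1 * b1) := by exact_mod_cast h'
  simp only [val]
  nlinarith

end Pool.Agent.Y409.Gr
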