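import Pool.Agent.Y409.Gr4

set_option autoImplicit false

/-! The computation at `-1/322`. -/

namespace Pool.Agent.Y409.Gr

set_option maxRecDepth 100000 in
theorem run_viol : bviol (run 13 322 LA LB) = true := by decide +kernel

end Pool.Agent.Y409.Gr
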